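import Mathlib
open Matrix
namespace Pool.Agent.Results.MP_f9eabf_al.Four

/-- The minor of `A` with rows `α` and columns `β`, two increasing index sequences of length `k`. -/
noncomputable def minor {n k : ℕ} (A : Matrix (Fin n) (Fin n) ℂ) (α β : Fin k ↪o Fin n) : ℂ :=
  (A.submatrix α β).det

/-- The complex number `z` is real and positive. -/
def RealPos (z : ℂ) : Prop := z.im = 0 ∧ 0 < z.re

/-- The complex number `z` is real and nonnegative. -/
def RealNonneg (z : ℂ) : Prop := z.im = 0 ∧ 0 ≤ z.re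

/-- The set of indices occurring in an increasing index sequence. -/
def idx {n k : ℕ} (α : Fin k ↪o Fin n) : Finset (Fin n) := Finset.univ.image α

/-- `A` is a P-matrix: all principal minors are (real and) positive. -/
def IsPMatrix {n : ℕ} (A : Matrix (Fin n) (Fin n) ℂ) : Prop :=
  ∀ (k : ℕ) (α : Fin k ↪o Fin n), RealPos (minor A α α)

/-- `A` is weakly sign-symmetric: `A[α,β] A[β,α] ≥ 0` for all almost principal minors. -/
def IsWSS {n : ℕ} (A : Matrix (Fin n) (Fin n) ℂ) : Prop :=
  ∀ (k : ℕ) (α β : Fin k ↪o Fin n), k - (idx α ∩ idx β).card = 1 → RealNonneg (minor A α β * minor A β α)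

/-- GKK matrices: weakly sign-symmetric P-matrices. -/
def IsGKK {n : ℕ} (A : Matrix (Fin n) (Fin n) ℂ) : Prop := IsPMatrix A ∧ IsWSS A

/-- `l(B)`: the least real eigenvalue of `B`, and `∞` if there is none. -/
noncomputable def leastReal {k : ℕ} (B : Matrix (Fin k) (Fin k) ℂ) : EReal :=
  sInf {x : EReal | ∃ r : ℝ, x = (r : EReal) ∧ (r : ℂ) ∈ spectrum ℂ B}

/-- `A` is an omega-matrix: `l(A(α)) ≤ l(A(β)) < ∞` whenever `∅ ≠ β ⊆ α`. -/
def IsOmega {n : ℕ} (A : Matrix (Fin n) (Fin n) ℂ) : Prop :=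
  ∀ (k m : ℕ) (β : Fin k ↪o Fin n) (α : Fin m ↪o Fin n), 0 < k → idx β ⊆ idx α →
    leastReal (A.submatrix α α) ≤ leastReal (A.submatrix β β) ∧ leastReal (A.submatrix β β) < ⊤

/-- `A` is a tau-matrix: an omega-matrix which is a P-matrix and has `l(A) ≥ 0`. -/
def IsTau {n : ℕ} (A : Matrix (Fin n) (Fin n) ℂ) : Prop := IsOmega A ∧ IsPMatrix A ∧ 0 ≤ leastReal A

/-- `A` is stable: every eigenvalue has positive real part. -/
def IsStable {n : ℕ} (A : Matrix (Fin n) (Fin n) ℂ) : Prop := ∀ μ ∈ spectrum ℂ A, 0 < μ.re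

section Perm
variable {ι : Type*} 

theorem exists_perm_of_range_eq {k : ℕ} {f g : Fin k → ι} (hf : Function.Injective f) (hg : Function.Injective g)
    (h : Set.range f = Set.range g) : ∃ σ : Equiv.Perm (Fin k), g = f ∘ σ := by
  let e1 := Equiv.ofInjective f hf
  let e2 := Equiv.ofInjective g hg
  refine ⟨(e2.trans (Equiv.setCongr h.symm)).trans e1.symm, ?_⟩
  ext x
  simp only [Function.comp_apply, Equiv.trans_apply]
  have := Equiv.apply_ofInjective_symm hf ((Equiv.setCongr h.symm) (e2 x))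
  rw [this]
  simp [e2]

variable {R : Type*} [CommRing R]

theorem det_mul_det_perm {k : ℕ} (M M' : Matrix (Fin k) (Fin k) R) (σ τ : Equiv.Perm (Fin k)) :
    (M.submatrix σ τ).det * (M'.submatrix τ σ).det = M.det * M'.det := by
  have e1 : M.submatrix σ τ = (M.submatrix σ id).submatrix id τ := by simp
  have e2 : M'.submatrix τ σ = (M'.submatrix τ id).submatrix id σ := by simp
  rw [e1, e2, Matrix.det_permute', Matrix.det_permute', Matrix.det_permute, Matrix.det_permute]
  have h1 : ((Equiv.Perm.sign σ : ℤˣ) : ℤ) * ((Equiv.Perm.sign σ : ℤˣ) : ℤ) = 1 := by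
    rw [← Units.val_mul, Int.units_mul_self]; rfl
  have h2 : ((Equiv.Perm.sign τ : ℤˣ) : ℤ) * ((Equiv.Perm.sign τ : ℤˣ) : ℤ) = 1 := by
    rw [← Units.val_mul, Int.units_mul_self]; rfl
  have h1' : (((Equiv.Perm.sign σ : ℤˣ) : ℤ) : R) * (((Equiv.Perm.sign σ : ℤˣ) : ℤ) : R) = 1 := by
    exact_mod_cast congrArg (Int.cast : ℤ → R) h1
  have h2' : (((Equiv.Perm.sign τ : ℤˣ) : ℤ) : R) * (((Equiv.Perm.sign τ : ℤˣ) : ℤ) : R) = 1 := by
    exact_mod_cast congrArg (Int.cast : ℤ → R) h2
  calc _ = ((((Equiv.Perm.sign σ : ℤˣ) : ℤ) : R) * (((Equiv.Perm.sign σ : ℤˣ) : ℤ) : R)) *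
            ((((Equiv.Perm.sign τ : ℤˣ) : ℤ) : R) * (((Equiv.Perm.sign τ : ℤˣ) : ℤ) : R)) * (M.det * M'.det) := by ring
    _ = _ := by rw [h1', h2']; ring

end Perm

/-- sort an injective sequence -/
theorem exists_sorted {n k : ℕ} (f : Fin k → Fin n) (hf : Function.Injective f) :
    ∃ (α : Fin k ↪o Fin n) (σ : Equiv.Perm (Fin k)), f = α ∘ σ ∧ idx α = Finset.univ.image f := by
  have hc : (Finset.univ.image f).card = k := by
    rw [Finset.card_image_of_injective _ hf]; simp
  let α := (Finset.univ.image f).orderEmbOfFin hc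
  have hr : Set.range α = Set.range f := by
    rw [Finset.range_orderEmbOfFin]; simp
  obtain ⟨σ, hσ⟩ := exists_perm_of_range_eq α.injective hf hr
  refine ⟨α, σ, hσ, ?_⟩
  have : ((idx α : Finset (Fin n)) : Set (Fin n)) = ((Finset.univ.image f : Finset (Fin n)) : Set (Fin n)) := by
    simp only [idx, Finset.coe_image, Finset.coe_univ, Set.image_univ]
    exact hr
  exact_mod_cast this

theorem pm_inj {n : ℕ} {A : Matrix (Fin n) (Fin n) ℂ} (hA : IsPMatrix A) {k : ℕ} (f : Fin k → Fin n)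
    (hf : Function.Injective f) : RealPos (A.submatrix f f).det := by
  obtain ⟨α, σ, h, -⟩ := exists_sorted f hf
  have := hA k α
  rw [minor] at this
  rw [h]
  have e : (A.submatrix (α ∘ σ) (α ∘ σ)).det = (A.submatrix α α).det :=
    Matrix.det_submatrix_equiv_self σ (A.submatrix α α)
  rw [e]; exact this

theorem wss_inj {n : ℕ} {A : Matrix (Fin n) (Fin n) ℂ} (hA : IsWSS A) {k : ℕ} (f g : Fin k → Fin n)
    (hf : Function.Injective f) (hg : Function.Injective g)
    (hk : k - (Finset.univ.image f ∩ Finset.univ.image g).card = 1) :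
    RealNonneg ((A.submatrix f g).det * (A.submatrix g f).det) := by
  obtain ⟨α, σ, h, h'⟩ := exists_sorted f hf
  obtain ⟨β, τ, h2, h2'⟩ := exists_sorted g hg
  have := hA k α β (by rw [h', h2']; exact hk)
  have key := det_mul_det_perm (A.submatrix α β) (A.submatrix β α) σ τ
  rw [minor, minor, ← key] at this
  rw [h, h2]
  exact this

/-- transfer of an identity between real numbers -/
theorem real_ineq {X Y Z W T : ℂ} (hX : X.im = 0) (hZ : Z.im = 0) (h : T = X * Y - Z * W)
    (hT : 0 ≤ T.re) : Z.re * W.re ≤ X.re * Y.re := by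
  rw [h] at hT
  simp [hX, hZ] at hT
  exact hT

section small
variable {n : ℕ} {A : Matrix (Fin n) (Fin n) ℂ}

theorem det_fin_four' {R : Type*} [CommRing R] (M : Matrix (Fin 4) (Fin 4) R) : M.det =
    M 0 0 * (M 1 1 * M 2 2 * M 3 3 - M 1 1 * M 2 3 * M 3 2 - M 1 2 * M 2 1 * M 3 3 + M 1 2 * M 2 3 * M 3 1
      + M 1 3 * M 2 1 * M 3 2 - M 1 3 * M 2 2 * M 3 1)
    - M 0 1 * (M 1 0 * M 2 2 * M 3 3 - M 1 0 * M 2 3 * M 3 2 - M 1 2 * M 2 0 * M 3 3 + M 1 2 * M 2 3 * M 3 0
      + M 1 3 * M 2 0 * M 3 2 - M 1 3 * M 2 2 * M 3 0)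
    + M 0 2 * (M 1 0 * M 2 1 * M 3 3 - M 1 0 * M 2 3 * M 3 1 - M 1 1 * M 2 0 * M 3 3 + M 1 1 * M 2 3 * M 3 0
      + M 1 3 * M 2 0 * M 3 1 - M 1 3 * M 2 1 * M 3 0)
    - M 0 3 * (M 1 0 * M 2 1 * M 3 2 - M 1 0 * M 2 2 * M 3 1 - M 1 1 * M 2 0 * M 3 2 + M 1 1 * M 2 2 * M 3 0
      + M 1 2 * M 2 0 * M 3 1 - M 1 2 * M 2 1 * M 3 0) := by
  rw [Matrix.det_succ_row_zero]
  simp only [Fin.sum_univ_succ, Matrix.det_fin_three, Matrix.submatrix_apply]
  simp [Fin.succAbove, Fin.lt_def]
  ring

/-- principal minors of small order as functions of the indices -/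
def p2 (A : Matrix (Fin n) (Fin n) ℂ) (i j : Fin n) : ℂ := A i i * A j j - A i j * A j i
def p3 (A : Matrix (Fin n) (Fin n) ℂ) (i j k : Fin n) : ℂ :=
  A i i * A j j * A k k - A i i * A j k * A k j - A i j * A j i * A k k + A i j * A j k * A k i
    + A i k * A j i * A k j - A i k * A j j * A k i

theorem p1_pos (hP : IsPMatrix A) (i : Fin n) : RealPos (A i i) := by
  have := pm_inj hP ![i] (by intro a b _; exact Subsingleton.elim _ _)
  rw [Matrix.det_fin_one] at this
  exact this

theorem p2_pos (hP : IsPMatrix A) {i j : Fin n} (h : Function.Injective ![i, j]) : RealPos (p2 A i j) := by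
  have := pm_inj hP ![i, j] h
  rw [Matrix.det_fin_two] at this
  exact this

theorem p3_pos (hP : IsPMatrix A) {i j k : Fin n} (h : Function.Injective ![i, j, k]) : RealPos (p3 A i j k) := by
  have := pm_inj hP ![i, j, k] h
  rw [Matrix.det_fin_three] at this
  exact this

theorem ineq1 (hW : IsWSS A) (hP : IsPMatrix A) {i j : Fin n}
    (hk : 1 - (Finset.univ.image ![i] ∩ Finset.univ.image ![j]).card = 1) :
    (p2 A i j).re ≤ (A i i).re * (A j j).re := by
  have h1 := wss_inj hW ![i] ![j] (by intro a b _; exact Subsingleton.elim _ _)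
    (by intro a b _; exact Subsingleton.elim _ _) hk
  have h2 : (A.submatrix ![i] ![j]).det * (A.submatrix ![j] ![i]).det = A i i * A j j - 1 * p2 A i j := by
    rw [Matrix.det_fin_one, Matrix.det_fin_one]
    simp [p2]
  have := real_ineq (p1_pos hP i).1 (by simp) h2 h1.2
  simpa using this

theorem ineq2 (hW : IsWSS A) (hP : IsPMatrix A) {k i j : Fin n} (hi : Function.Injective ![k, i])
    (hj : Function.Injective ![k, j])
    (hk : 2 - (Finset.univ.image ![k, i] ∩ Finset.univ.image ![k, j]).card = 1) :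
    (A k k).re * (p3 A k i j).re ≤ (p2 A k i).re * (p2 A k j).re := by
  have h1 := wss_inj hW ![k, i] ![k, j] hi hj hk
  have h2 : (A.submatrix ![k, i] ![k, j]).det * (A.submatrix ![k, j] ![k, i]).det
      = p2 A k i * p2 A k j - A k k * p3 A k i j := by
    rw [Matrix.det_fin_two, Matrix.det_fin_two]
    simp [p2, p3]
    ring
  exact real_ineq (p2_pos hP hi).1 (p1_pos hP k).1 h2 h1.2

theorem ineq3 {A : Matrix (Fin 4) (Fin 4) ℂ} (hW : IsWSS A) (hP : IsPMatrix A) {k l i j : Fin 4}
    (hi : Function.Injective ![k, l, i]) (hj : Function.Injective ![k, l, j]) (hkl : Function.Injective ![k, l])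
    (hk : 3 - (Finset.univ.image ![k, l, i] ∩ Finset.univ.image ![k, l, j]).card = 1)
    (hp : (A.submatrix ![k, l, i, j] ![k, l, i, j]).det = A.det) :
    (p2 A k l).re * (A.det).re ≤ (p3 A k l i).re * (p3 A k l j).re := by
  have h1 := wss_inj hW ![k, l, i] ![k, l, j] hi hj hk
  have h2 : (A.submatrix ![k, l, i] ![k, l, j]).det * (A.submatrix ![k, l, j] ![k, l, i]).det
      = p3 A k l i * p3 A k l j - p2 A k l * A.det := by
    rw [← hp, det_fin_four', Matrix.det_fin_three, Matrix.det_fin_three]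
    simp [p2, p3]
    ring
  exact real_ineq (p3_pos hP hi).1 (p2_pos hP hkl).1 h2 h1.2

end small

section hurwitz

theorem linear_root {S1 : ℝ} (h1 : 0 < S1) (z : ℂ) (hz : z + S1 = 0) : z.re < 0 := by
  have := congrArg Complex.re hz
  simp at this
  linarith

theorem quadratic_root {S1 S2 : ℝ} (h1 : 0 < S1) (h2 : 0 < S2) (z : ℂ) (hz : z ^ 2 + S1 * z + S2 = 0) :
    z.re < 0 := by
  by_contra hu
  push Not at hu
  obtain ⟨u, v⟩ := z
  simp only at hu
  have hre := congrArg Complex.re hz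
  have him := congrArg Complex.im hz
  simp [pow_succ] at hre him
  have hv : v * (2 * u + S1) = 0 := by linear_combination him
  rcases mul_eq_zero.mp hv with h | h
  · subst h; nlinarith [mul_nonneg hu hu, mul_nonneg h1.le hu]
  · linarith

theorem cubic_root {S1 S2 S3 : ℝ} (h1 : 0 < S1) (h2 : 0 < S2) (h3 : 0 < S3) (H : S3 < S1 * S2) (z : ℂ)
    (hz : z ^ 3 + S1 * z ^ 2 + S2 * z + S3 = 0) : z.re < 0 := by
  by_contra hu
  push Not at hu
  obtain ⟨u, v⟩ := z
  simp only at hu
  have hre := congrArg Complex.re hz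
  have him := congrArg Complex.im hz
  simp [pow_succ] at hre him
  have hv : v * (3 * u ^ 2 - v ^ 2 + 2 * S1 * u + S2) = 0 := by linear_combination him
  have hr : u ^ 3 - 3 * u * v ^ 2 + S1 * (u ^ 2 - v ^ 2) + S2 * u + S3 = 0 := by linear_combination hre
  rcases mul_eq_zero.mp hv with h | h
  · subst h
    have : 0 < u ^ 3 + S1 * u ^ 2 + S2 * u + S3 := by positivity
    nlinarith
  · have hv2 : v ^ 2 = 3 * u ^ 2 + 2 * S1 * u + S2 := by linarith
    rw [hv2] at hr
    have : 0 < 8 * u ^ 3 + 8 * S1 * u ^ 2 + (2 * S2 + 2 * S1 ^ 2) * u + (S1 * S2 - S3) := by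
      have : 0 < S1 * S2 - S3 := by linarith
      positivity
    nlinarith

theorem quartic_root {S1 S2 S3 S4 : ℝ} (h1 : 0 < S1) (h2 : 0 < S2) (h3 : 0 < S3) (h4 : 0 < S4)
    (H : S3 ^ 2 + S1 ^ 2 * S4 < S1 * S2 * S3) (z : ℂ)
    (hz : z ^ 4 + S1 * z ^ 3 + S2 * z ^ 2 + S3 * z + S4 = 0) : z.re < 0 := by
  by_contra hu
  push Not at hu
  obtain ⟨u, v⟩ := z
  simp only at hu
  have hre := congrArg Complex.re hz
  have him := congrArg Complex.im hz
  simp [pow_succ] at hre him
  have hv : v * (4 * u ^ 3 - 4 * u * v ^ 2 + S1 * (3 * u ^ 2 - v ^ 2) + 2 * S2 * u + S3) = 0 := by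
    linear_combination him
  have hr : u ^ 4 - 6 * u ^ 2 * v ^ 2 + v ^ 4 + S1 * (u ^ 3 - 3 * u * v ^ 2) + S2 * (u ^ 2 - v ^ 2) + S3 * u + S4 = 0 := by
    linear_combination hre
  have h44 : 4 * S4 ≤ S2 ^ 2 := by
    have e : S1 ^ 2 * (4 * S4) ≤ S1 ^ 2 * S2 ^ 2 := by nlinarith [sq_nonneg (S1 * S2 - 2 * S3)]
    exact le_of_mul_le_mul_left e (by positivity)
  rcases mul_eq_zero.mp hv with h | h
  · subst h
    have : 0 < u ^ 4 + S1 * u ^ 3 + S2 * u ^ 2 + S3 * u + S4 := by positivity
    nlinarith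
  · have hD : 0 < 4 * u + S1 := by linarith
    have hw : v ^ 2 * (4 * u + S1) = 4 * u ^ 3 + 3 * S1 * u ^ 2 + 2 * S2 * u + S3 := by linear_combination -h
    have key : (4 * u ^ 3 + 3 * S1 * u ^ 2 + 2 * S2 * u + S3) ^ 2
        - (4 * u ^ 3 + 3 * S1 * u ^ 2 + 2 * S2 * u + S3) * (4 * u + S1) * (6 * u ^ 2 + 3 * S1 * u + S2)
        + (4 * u + S1) ^ 2 * (u ^ 4 + S1 * u ^ 3 + S2 * u ^ 2 + S3 * u + S4) = 0 := by
      rw [← hw]
      linear_combination (4 * u + S1) ^ 2 * hr
    have e0 : 0 < S1 * S2 * S3 - S1 ^ 2 * S4 - S3 ^ 2 := by linarith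
    have e1 : 0 ≤ 2 * S1 * (S2 ^ 2 - 4 * S4) + 2 * S1 ^ 2 * S3 := by
      have : 0 ≤ S2 ^ 2 - 4 * S4 := by linarith
      positivity
    have e2 : 0 ≤ 4 * S1 * S3 + 8 * S1 ^ 2 * S2 + 4 * (S2 ^ 2 - 4 * S4) := by
      have : 0 ≤ S2 ^ 2 - 4 * S4 := by linarith
      positivity
    have : 0 < (S1 * S2 * S3 - S1 ^ 2 * S4 - S3 ^ 2) + u * (2 * S1 * (S2 ^ 2 - 4 * S4) + 2 * S1 ^ 2 * S3)
        + u ^ 2 * (4 * S1 * S3 + 8 * S1 ^ 2 * S2 + 4 * (S2 ^ 2 - 4 * S4))
        + u ^ 3 * (32 * S1 * S2 + 8 * S1 ^ 3) + u ^ 4 * (48 * S1 ^ 2 + 32 * S2) + u ^ 5 * (96 * S1) + 64 * u ^ 6 := by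
      have t1 := mul_nonneg hu e1
      have t2 := mul_nonneg (sq_nonneg u) e2
      have t3 : 0 ≤ u ^ 3 * (32 * S1 * S2 + 8 * S1 ^ 3) := by positivity
      have t4 : 0 ≤ u ^ 4 * (48 * S1 ^ 2 + 32 * S2) := by positivity
      have t5 : 0 ≤ u ^ 5 * (96 * S1) := by positivity
      have t6 : 0 ≤ 64 * u ^ 6 := by positivity
      linarith
    nlinarith

/-- the determinantal inequality behind the quartic case -/
theorem hurwitz_four {a0 a1 a2 a3 p01 p02 p03 p12 p13 p23 q012 q013 q023 q123 r : ℝ}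
    (ha0 : 0 < a0) (ha1 : 0 < a1) (ha2 : 0 < a2) (ha3 : 0 < a3)
    (h01 : 0 < p01) (h02 : 0 < p02) (h03 : 0 < p03) (h12 : 0 < p12) (h13 : 0 < p13) (h23 : 0 < p23)
    (k012 : 0 < q012) (k013 : 0 < q013) (k023 : 0 < q023) (k123 : 0 < q123) (hr : 0 < r)
    -- `a_i p_jk ≥ q_ijk`
    (t012 : q012 ≤ a0 * p12) (t102 : q012 ≤ a1 * p02) (t201 : q012 ≤ a2 * p01)
    (t013 : q013 ≤ a0 * p13) (t103 : q013 ≤ a1 * p03) (t301 : q013 ≤ a3 * p01)
    (t023 : q023 ≤ a0 * p23) (t203 : q023 ≤ a2 * p03) (t302 : q023 ≤ a3 * p02)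
    (t123 : q123 ≤ a1 * p23) (t213 : q123 ≤ a2 * p13) (t312 : q123 ≤ a3 * p12)
    -- `p_ij q_ikl ≥ a_i r`
    (s01 : a0 * r ≤ p01 * q023) (s02 : a0 * r ≤ p02 * q013) (s03 : a0 * r ≤ p03 * q012)
    (s10 : a1 * r ≤ p01 * q123) (s12 : a1 * r ≤ p12 * q013) (s13 : a1 * r ≤ p13 * q012)
    (s20 : a2 * r ≤ p02 * q123) (s21 : a2 * r ≤ p12 * q023) (s23 : a2 * r ≤ p23 * q012)
    (s30 : a3 * r ≤ p03 * q123) (s31 : a3 * r ≤ p13 * q023) (s32 : a3 * r ≤ p23 * q013) :
    (q012 + q013 + q023 + q123) ^ 2 + (a0 + a1 + a2 + a3) ^ 2 * r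
      < (a0 + a1 + a2 + a3) * (p01 + p02 + p03 + p12 + p13 + p23) * (q012 + q013 + q023 + q123) := by
  set S3 := q012 + q013 + q023 + q123 with hS3
  have hS3p : 0 < S3 := by positivity
  set E := (a0 + a1) * p01 + (a0 + a2) * p02 + (a0 + a3) * p03 + (a1 + a2) * p12 + (a1 + a3) * p13 + (a2 + a3) * p23 with hE
  have step1 : 3 * S3 + E ≤ (a0 + a1 + a2 + a3) * (p01 + p02 + p03 + p12 + p13 + p23) := by
    rw [hS3, hE]; linarith
  have step2 : (a0 + a1 + a2 + a3) ^ 2 * r < E * S3 + 2 * S3 ^ 2 := by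
    have m : ∀ {x y z : ℝ}, 0 < x → y ≤ z → x * y ≤ x * z := fun hx h => mul_le_mul_of_nonneg_left h hx.le
    have f01 := m ha0 s01
    have f02 := m ha0 s02
    have f03 := m ha0 s03
    have f10 := m ha1 s10
    have f12 := m ha1 s12
    have f13 := m ha1 s13
    have f20 := m ha2 s20
    have f21 := m ha2 s21
    have f23 := m ha2 s23
    have f30 := m ha3 s30
    have f31 := m ha3 s31
    have f32 := m ha3 s32
    have g01 := m ha1 s01
    have g02 := m ha2 s02
    have g03 := m ha3 s03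
    have g10 := m ha0 s10
    have g12 := m ha2 s12
    have g13 := m ha3 s13
    have g20 := m ha0 s20
    have g21 := m ha1 s21
    have g23 := m ha3 s23
    have g30 := m ha0 s30
    have g31 := m ha1 s31
    have g32 := m ha2 s32
    have big : (3 * (a0 ^ 2 + a1 ^ 2 + a2 ^ 2 + a3 ^ 2) + 2 * (a0 * a1 + a0 * a2 + a0 * a3 + a1 * a2 + a1 * a3 + a2 * a3)) * r
        + ((a0 + a1) * p01 * (q012 + q013) + (a0 + a2) * p02 * (q012 + q023) + (a0 + a3) * p03 * (q013 + q023)
          + (a1 + a2) * p12 * (q012 + q123) + (a1 + a3) * p13 * (q013 + q123) + (a2 + a3) * p23 * (q023 + q123))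
        ≤ E * S3 := by
      rw [hE, hS3]
      linarith
    have rest : 0 ≤ (a0 + a1) * p01 * (q012 + q013) + (a0 + a2) * p02 * (q012 + q023) + (a0 + a3) * p03 * (q013 + q023)
          + (a1 + a2) * p12 * (q012 + q123) + (a1 + a3) * p13 * (q013 + q123) + (a2 + a3) * p23 * (q023 + q123) := by
      positivity
    have sq : 0 ≤ (2 * (a0 ^ 2 + a1 ^ 2 + a2 ^ 2 + a3 ^ 2)) * r := by positivity
    have s3 : 0 < 2 * S3 ^ 2 := by positivity
    have e : (a0 + a1 + a2 + a3) ^ 2 * r = (3 * (a0 ^ 2 + a1 ^ 2 + a2 ^ 2 + a3 ^ 2)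
        + 2 * (a0 * a1 + a0 * a2 + a0 * a3 + a1 * a2 + a1 * a3 + a2 * a3)) * r
        - (2 * (a0 ^ 2 + a1 ^ 2 + a2 ^ 2 + a3 ^ 2)) * r := by ring
    rw [e]
    linarith
  have step3 := mul_le_mul_of_nonneg_right step1 hS3p.le
  have e3 : (3 * S3 + E) * S3 = 3 * S3 ^ 2 + E * S3 := by ring
  rw [e3] at step3
  linarith

end hurwitz

section smallorder

variable {n : ℕ}

theorem p3_perm1 (A : Matrix (Fin n) (Fin n) ℂ) (i j k : Fin n) : p3 A i j k = p3 A j i k := by
  simp only [p3]; ring
theorem p3_perm2 (A : Matrix (Fin n) (Fin n) ℂ) (i j k : Fin n) : p3 A i j k = p3 A i k j := by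
  simp only [p3]; ring
theorem p2_perm (A : Matrix (Fin n) (Fin n) ℂ) (i j : Fin n) : p2 A i j = p2 A j i := by
  simp only [p2]; ring

theorem tq {A : Matrix (Fin n) (Fin n) ℂ} (hW : IsWSS A) (hP : IsPMatrix A) (i j k : Fin n)
    (c1 : Function.Injective ![j, k]) (c2 : Function.Injective ![j, i])
    (c3 : 2 - (Finset.univ.image ![j, k] ∩ Finset.univ.image ![j, i]).card = 1)
    (c4 : 1 - (Finset.univ.image ![j] ∩ Finset.univ.image ![i]).card = 1) :
    (p3 A i j k).re ≤ (A i i).re * (p2 A j k).re := by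
  have h1 := ineq2 hW hP c1 c2 c3
  have h2 := ineq1 hW hP c4
  have ha := (p1_pos hP j).2
  have hp := (p2_pos hP c1).2
  have e : p3 A j k i = p3 A i j k := by simp only [p3]; ring
  rw [e] at h1
  have h3 : (A j j).re * (p3 A i j k).re ≤ (A j j).re * ((A i i).re * (p2 A j k).re) := by
    have := mul_le_mul_of_nonneg_left h2 hp.le
    nlinarith
  exact le_of_mul_le_mul_left h3 ha

theorem sq4 {A : Matrix (Fin 4) (Fin 4) ℂ} (hW : IsWSS A) (hP : IsPMatrix A) (i j k l : Fin 4)
    (c1 : Function.Injective ![i, j]) (c2 : Function.Injective ![i, k])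
    (c3 : 2 - (Finset.univ.image ![i, j] ∩ Finset.univ.image ![i, k]).card = 1)
    (c4 : Function.Injective ![i, k, j]) (c5 : Function.Injective ![i, k, l])
    (c6 : 3 - (Finset.univ.image ![i, k, j] ∩ Finset.univ.image ![i, k, l]).card = 1)
    (hp : (A.submatrix ![i, k, j, l] ![i, k, j, l]).det = A.det) :
    (A i i).re * (A.det).re ≤ (p2 A i j).re * (p3 A i k l).re := by
  have h1 := ineq2 hW hP c1 c2 c3
  have h2 := ineq3 hW hP c4 c5 c2 c6 hp
  have ha := (p1_pos hP i).2
  have hik := (p2_pos hP c2).2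
  have h3 := (p3_pos hP c5).2
  have e : p3 A i k j = p3 A i j k := p3_perm2 A i k j
  rw [e] at h2
  have h5 : (p2 A i k).re * ((A i i).re * (A.det).re) ≤ (p2 A i k).re * ((p2 A i j).re * (p3 A i k l).re) := by
    have t1 := mul_le_mul_of_nonneg_left h2 ha.le
    have t2 := mul_le_mul_of_nonneg_right h1 h3.le
    nlinarith
  exact le_of_mul_le_mul_left h5 hik

theorem det_shift_zero {A : Matrix (Fin n) (Fin n) ℂ} {μ : ℂ} (hμ : μ ∈ spectrum ℂ A) :
    (A + (-μ) • (1 : Matrix (Fin n) (Fin n) ℂ)).det = 0 := by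
  rw [spectrum.mem_iff, Matrix.isUnit_iff_isUnit_det, isUnit_iff_ne_zero, not_not] at hμ
  have e : A + (-μ) • (1 : Matrix (Fin n) (Fin n) ℂ) = -((algebraMap ℂ (Matrix (Fin n) (Fin n) ℂ)) μ - A) := by
    rw [Algebra.algebraMap_eq_smul_one, neg_smul]; abel
  rw [e, Matrix.det_neg, hμ, mul_zero]

theorem mem_spectrum_of_det {A : Matrix (Fin n) (Fin n) ℂ} {μ : ℂ}
    (h : (A + (-μ) • (1 : Matrix (Fin n) (Fin n) ℂ)).det = 0) : μ ∈ spectrum ℂ A := by
  rw [spectrum.mem_iff, Matrix.isUnit_iff_isUnit_det, isUnit_iff_ne_zero, not_not]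
  have e : (algebraMap ℂ (Matrix (Fin n) (Fin n) ℂ)) μ - A = -(A + (-μ) • (1 : Matrix (Fin n) (Fin n) ℂ)) := by
    rw [Algebra.algebraMap_eq_smul_one, neg_smul]; abel
  rw [e, Matrix.det_neg, h, mul_zero]

theorem ofReal_of_im {z : ℂ} (h : z.im = 0) : z = (z.re : ℂ) := by
  apply Complex.ext <;> simp [h]

theorem stable_one {A : Matrix (Fin 1) (Fin 1) ℂ} (hP : IsPMatrix A) : ∀ μ ∈ spectrum ℂ A, 0 < μ.re := by
  intro μ hμ
  have h := det_shift_zero hμ
  have hp := p1_pos hP 0
  rw [Matrix.det_fin_one] at h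
  simp only [Matrix.add_apply, Matrix.smul_apply, Matrix.one_apply_eq, smul_eq_mul, mul_one] at h
  have := linear_root hp.2 (-μ) (by rw [← ofReal_of_im hp.1]; linear_combination h)
  simpa using this

theorem stable_two {A : Matrix (Fin 2) (Fin 2) ℂ} (hP : IsPMatrix A) : ∀ μ ∈ spectrum ℂ A, 0 < μ.re := by
  intro μ hμ
  have h := det_shift_zero hμ
  have h0 := p1_pos hP 0
  have h1 := p1_pos hP 1
  have h01 := p2_pos hP (i := 0) (j := 1) (by decide)
  rw [Matrix.det_fin_two] at h
  simp [Matrix.add_apply, Matrix.smul_apply] at h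
  have := quadratic_root (S1 := (A 0 0).re + (A 1 1).re) (S2 := (p2 A 0 1).re) (by linarith [h0.2, h1.2]) h01.2 (-μ) (by
    push_cast
    rw [← ofReal_of_im h0.1, ← ofReal_of_im h1.1, ← ofReal_of_im h01.1]
    simp only [p2]
    linear_combination h)
  simpa using this

theorem stable_three {A : Matrix (Fin 3) (Fin 3) ℂ} (hP : IsPMatrix A) (hW : IsWSS A) :
    ∀ μ ∈ spectrum ℂ A, 0 < μ.re := by
  intro μ hμ
  have h := det_shift_zero hμ
  have h0 := p1_pos hP 0
  have h1 := p1_pos hP 1
  have h2 := p1_pos hP 2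
  have h01 := p2_pos hP (i := 0) (j := 1) (by decide)
  have h02 := p2_pos hP (i := 0) (j := 2) (by decide)
  have h12 := p2_pos hP (i := 1) (j := 2) (by decide)
  have h012 := p3_pos hP (i := 0) (j := 1) (k := 2) (by decide)
  have t0 := tq hW hP 0 1 2 (by decide) (by decide) (by decide) (by decide)
  rw [Matrix.det_fin_three] at h
  simp [Matrix.add_apply, Matrix.smul_apply] at h
  have := cubic_root (S1 := (A 0 0).re + (A 1 1).re + (A 2 2).re)
    (S2 := (p2 A 0 1).re + (p2 A 0 2).re + (p2 A 1 2).re) (S3 := (p3 A 0 1 2).re)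
    (by linarith [h0.2, h1.2, h2.2]) (by linarith [h01.2, h02.2, h12.2]) h012.2 (by
      nlinarith [mul_pos h0.2 h01.2, mul_pos h0.2 h02.2, mul_pos h1.2 h01.2, mul_pos h1.2 h02.2, mul_pos h1.2 h12.2,
        mul_pos h2.2 h01.2, mul_pos h2.2 h02.2, mul_pos h2.2 h12.2]) (-μ) (by
    push_cast
    rw [← ofReal_of_im h0.1, ← ofReal_of_im h1.1, ← ofReal_of_im h2.1, ← ofReal_of_im h01.1, ← ofReal_of_im h02.1,
      ← ofReal_of_im h12.1, ← ofReal_of_im h012.1]
    simp only [p2, p3]
    linear_combination h)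
  simpa using this

theorem stable_four {A : Matrix (Fin 4) (Fin 4) ℂ} (hP : IsPMatrix A) (hW : IsWSS A) :
    ∀ μ ∈ spectrum ℂ A, 0 < μ.re := by
  intro μ hμ
  have h := det_shift_zero hμ
  have h0 := p1_pos hP 0
  have h1 := p1_pos hP 1
  have h2 := p1_pos hP 2
  have h3 := p1_pos hP 3
  have h01 := p2_pos hP (i := 0) (j := 1) (by decide)
  have h02 := p2_pos hP (i := 0) (j := 2) (by decide)
  have h03 := p2_pos hP (i := 0) (j := 3) (by decide)
  have h12 := p2_pos hP (i := 1) (j := 2) (by decide)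
  have h13 := p2_pos hP (i := 1) (j := 3) (by decide)
  have h23 := p2_pos hP (i := 2) (j := 3) (by decide)
  have h012 := p3_pos hP (i := 0) (j := 1) (k := 2) (by decide)
  have h013 := p3_pos hP (i := 0) (j := 1) (k := 3) (by decide)
  have h023 := p3_pos hP (i := 0) (j := 2) (k := 3) (by decide)
  have h123 := p3_pos hP (i := 1) (j := 2) (k := 3) (by decide)
  have hr : RealPos A.det := by
    have := pm_inj hP (id : Fin 4 → Fin 4) Function.injective_id
    simpa using this
  have hS : ∀ σ : Fin 4 → Fin 4, Function.Bijective σ → (A.submatrix σ σ).det = A.det := by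
    intro σ hσ
    exact Matrix.det_submatrix_equiv_self (Equiv.ofBijective σ hσ) A
  have t012 := tq hW hP 0 1 2 (by decide) (by decide) (by decide) (by decide)
  have t102 := tq hW hP 1 0 2 (by decide) (by decide) (by decide) (by decide)
  have t201 := tq hW hP 2 0 1 (by decide) (by decide) (by decide) (by decide)
  have t013 := tq hW hP 0 1 3 (by decide) (by decide) (by decide) (by decide)
  have t103 := tq hW hP 1 0 3 (by decide) (by decide) (by decide) (by decide)
  have t301 := tq hW hP 3 0 1 (by decide) (by decide) (by decide) (by decide)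
  have t023 := tq hW hP 0 2 3 (by decide) (by decide) (by decide) (by decide)
  have t203 := tq hW hP 2 0 3 (by decide) (by decide) (by decide) (by decide)
  have t302 := tq hW hP 3 0 2 (by decide) (by decide) (by decide) (by decide)
  have t123 := tq hW hP 1 2 3 (by decide) (by decide) (by decide) (by decide)
  have t213 := tq hW hP 2 1 3 (by decide) (by decide) (by decide) (by decide)
  have t312 := tq hW hP 3 1 2 (by decide) (by decide) (by decide) (by decide)
  rw [show p3 A 1 0 2 = p3 A 0 1 2 by simp only [p3]; ring] at t102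
  rw [show p3 A 2 0 1 = p3 A 0 1 2 by simp only [p3]; ring] at t201
  rw [show p3 A 1 0 3 = p3 A 0 1 3 by simp only [p3]; ring] at t103
  rw [show p3 A 3 0 1 = p3 A 0 1 3 by simp only [p3]; ring] at t301
  rw [show p3 A 2 0 3 = p3 A 0 2 3 by simp only [p3]; ring] at t203
  rw [show p3 A 3 0 2 = p3 A 0 2 3 by simp only [p3]; ring] at t302
  rw [show p3 A 2 1 3 = p3 A 1 2 3 by simp only [p3]; ring] at t213
  rw [show p3 A 3 1 2 = p3 A 1 2 3 by simp only [p3]; ring] at t312
  have s01 := sq4 hW hP 0 1 2 3 (by decide) (by decide) (by decide) (by decide) (by decide) (by decide) (hS _ (by decide))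
  have s02 := sq4 hW hP 0 2 1 3 (by decide) (by decide) (by decide) (by decide) (by decide) (by decide) (hS _ (by decide))
  have s03 := sq4 hW hP 0 3 1 2 (by decide) (by decide) (by decide) (by decide) (by decide) (by decide) (hS _ (by decide))
  have s10 := sq4 hW hP 1 0 2 3 (by decide) (by decide) (by decide) (by decide) (by decide) (by decide) (hS _ (by decide))
  have s12 := sq4 hW hP 1 2 0 3 (by decide) (by decide) (by decide) (by decide) (by decide) (by decide) (hS _ (by decide))
  have s13 := sq4 hW hP 1 3 0 2 (by decide) (by decide) (by decide) (by decide) (by decide) (by decide) (hS _ (by decide))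
  have s20 := sq4 hW hP 2 0 1 3 (by decide) (by decide) (by decide) (by decide) (by decide) (by decide) (hS _ (by decide))
  have s21 := sq4 hW hP 2 1 0 3 (by decide) (by decide) (by decide) (by decide) (by decide) (by decide) (hS _ (by decide))
  have s23 := sq4 hW hP 2 3 0 1 (by decide) (by decide) (by decide) (by decide) (by decide) (by decide) (hS _ (by decide))
  have s30 := sq4 hW hP 3 0 1 2 (by decide) (by decide) (by decide) (by decide) (by decide) (by decide) (hS _ (by decide))
  have s31 := sq4 hW hP 3 1 0 2 (by decide) (by decide) (by decide) (by decide) (by decide) (by decide) (hS _ (by decide))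
  have s32 := sq4 hW hP 3 2 0 1 (by decide) (by decide) (by decide) (by decide) (by decide) (by decide) (hS _ (by decide))
  rw [show p2 A 1 0 = p2 A 0 1 by simp only [p2]; ring] at s10
  rw [show p3 A 1 0 3 = p3 A 0 1 3 by simp only [p3]; ring] at s12
  rw [show p3 A 1 0 2 = p3 A 0 1 2 by simp only [p3]; ring] at s13
  rw [show p2 A 2 0 = p2 A 0 2 by simp only [p2]; ring, show p3 A 2 1 3 = p3 A 1 2 3 by simp only [p3]; ring] at s20
  rw [show p2 A 2 1 = p2 A 1 2 by simp only [p2]; ring, show p3 A 2 0 3 = p3 A 0 2 3 by simp only [p3]; ring] at s21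
  rw [show p3 A 2 0 1 = p3 A 0 1 2 by simp only [p3]; ring] at s23
  rw [show p2 A 3 0 = p2 A 0 3 by simp only [p2]; ring, show p3 A 3 1 2 = p3 A 1 2 3 by simp only [p3]; ring] at s30
  rw [show p2 A 3 1 = p2 A 1 3 by simp only [p2]; ring, show p3 A 3 0 2 = p3 A 0 2 3 by simp only [p3]; ring] at s31
  rw [show p2 A 3 2 = p2 A 2 3 by simp only [p2]; ring, show p3 A 3 0 1 = p3 A 0 1 3 by simp only [p3]; ring] at s32
  have H := hurwitz_four h0.2 h1.2 h2.2 h3.2 h01.2 h02.2 h03.2 h12.2 h13.2 h23.2 h012.2 h013.2 h023.2 h123.2 hr.2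
    t012 t102 t201 t013 t103 t301 t023 t203 t302 t123 t213 t312 s01 s02 s03 s10 s12 s13 s20 s21 s23 s30 s31 s32
  have hchar : (-μ) ^ 4 + (A 0 0 + A 1 1 + A 2 2 + A 3 3) * (-μ) ^ 3
      + (p2 A 0 1 + p2 A 0 2 + p2 A 0 3 + p2 A 1 2 + p2 A 1 3 + p2 A 2 3) * (-μ) ^ 2
      + (p3 A 0 1 2 + p3 A 0 1 3 + p3 A 0 2 3 + p3 A 1 2 3) * (-μ) + A.det = 0 := by
    rw [det_fin_four'] at h
    rw [det_fin_four']
    simp [Matrix.add_apply, Matrix.smul_apply] at h
    simp only [p2, p3]
    linear_combination h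
  have := quartic_root (S1 := (A 0 0).re + (A 1 1).re + (A 2 2).re + (A 3 3).re)
    (S2 := (p2 A 0 1).re + (p2 A 0 2).re + (p2 A 0 3).re + (p2 A 1 2).re + (p2 A 1 3).re + (p2 A 2 3).re)
    (S3 := (p3 A 0 1 2).re + (p3 A 0 1 3).re + (p3 A 0 2 3).re + (p3 A 1 2 3).re) (S4 := (A.det).re)
    (by linarith [h0.2, h1.2, h2.2, h3.2]) (by linarith [h01.2, h02.2, h03.2, h12.2, h13.2, h23.2])
    (by linarith [h012.2, h013.2, h023.2, h123.2]) hr.2 H (-μ) (by
    push_cast
    rw [← ofReal_of_im h0.1, ← ofReal_of_im h1.1, ← ofReal_of_im h2.1, ← ofReal_of_im h3.1,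
      ← ofReal_of_im h01.1, ← ofReal_of_im h02.1, ← ofReal_of_im h03.1, ← ofReal_of_im h12.1, ← ofReal_of_im h13.1,
      ← ofReal_of_im h23.1, ← ofReal_of_im h012.1, ← ofReal_of_im h013.1, ← ofReal_of_im h023.1, ← ofReal_of_im h123.1,
      ← ofReal_of_im hr.1]
    exact hchar)
  simpa using this

theorem stable_small {n : ℕ} (hn : n ≤ 4) {A : Matrix (Fin n) (Fin n) ℂ} (hP : IsPMatrix A) (hW : IsWSS A) :
    ∀ μ ∈ spectrum ℂ A, 0 < μ.re := by
  interval_cases n
  · intro μ hμ
    have h := det_shift_zero hμ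
    simp at h
  · exact stable_one hP
  · exact stable_two hP
  · exact stable_three hP hW
  · exact stable_four hP hW

end smallorder
section Pivot
variable {ι : Type*} {K : Type*} [Field K]

/-- one step of Gaussian elimination with pivot `k` (Schur complement of the entry `k k`) -/
def piv (A : Matrix ι ι K) (k : ι) : Matrix ι ι K := fun i j => A i j - A i k * A k j / A k k

theorem det_piv {m : ℕ} (A : Matrix ι ι K) (k : ι) (hk : A k k ≠ 0) (f g : Fin m → ι) :
    (A.submatrix (Fin.cons k f : Fin (m+1) → ι) (Fin.cons k g : Fin (m+1) → ι)).det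
      = A k k * ((piv A k).submatrix f g).det := by
  set M := A.submatrix (Fin.cons k f : Fin (m+1) → ι) (Fin.cons k g : Fin (m+1) → ι) with hM
  let c : Fin (m+1) → K := Fin.cons 0 (fun i => A (f i) k / A k k)
  let B : Matrix (Fin (m+1)) (Fin (m+1)) K := fun i j => M i j - c i * M 0 j
  have h1 : M.det = B.det := by
    apply Matrix.det_eq_of_forall_row_eq_smul_add_const c 0 (by simp [c])
    intro i j
    simp only [B, c]
    simp
  rw [h1, Matrix.det_succ_column_zero, Finset.sum_eq_single 0]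
  · have h2 : B.submatrix (Fin.succAbove 0) Fin.succ = (piv A k).submatrix f g := by
      ext i j
      change M (Fin.succAbove 0 i) j.succ - c (Fin.succAbove 0 i) * M 0 j.succ = A (f i) (g j) - A (f i) k * A k (g j) / A k k
      rw [Fin.zero_succAbove]
      simp only [c, M, Matrix.submatrix_apply, Fin.cons_succ, Fin.cons_zero]
      ring
    rw [h2]
    simp [B, c, M]
  · intro i _ hi
    obtain ⟨i', rfl⟩ := Fin.exists_succ_eq.mpr hi
    have : B i'.succ 0 = 0 := by
      simp only [B, c, M, Matrix.submatrix_apply, Fin.cons_succ, Fin.cons_zero]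
      field_simp
      simp
    rw [this]; simp
  · simp

/-- successive elimination along a list of pivots -/
def pivL (A : Matrix ι ι K) : List ι → Matrix ι ι K
  | [] => A
  | k :: L => pivL (piv A k) L

/-- all pivots met along the list are nonzero -/
def PNZ (A : Matrix ι ι K) : List ι → Prop
  | [] => True
  | k :: L => A k k ≠ 0 ∧ PNZ (piv A k) L

/-- product of the pivots met along the list -/
def pprod (A : Matrix ι ι K) : List ι → K
  | [] => 1
  | k :: L => A k k * pprod (piv A k) L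

theorem det_list (m : ℕ) : ∀ (A : Matrix ι ι K) (h : Fin m → ι), PNZ A (List.ofFn h) →
    (A.submatrix h h).det = pprod A (List.ofFn h) := by
  induction m with
  | zero => intro A h _; simp [pprod]
  | succ m ih =>
    intro A h hp
    rw [List.ofFn_succ] at hp ⊢
    obtain ⟨h0, h1⟩ := hp
    have e : h = (Fin.cons (h 0) (fun i => h i.succ) : Fin (m+1) → ι) := by
      ext i; refine Fin.cases ?_ ?_ i <;> simp
    have := det_piv A (h 0) h0 (fun i => h i.succ) (fun i => h i.succ)
    rw [← e] at this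
    rw [this, ih _ _ h1]
    rfl

theorem det_list_snoc (m : ℕ) : ∀ (A : Matrix ι ι K) (h : Fin m → ι) (i j : ι), PNZ A (List.ofFn h) →
    (A.submatrix (Fin.snoc h i : Fin (m+1) → ι) (Fin.snoc h j : Fin (m+1) → ι)).det
      = pprod A (List.ofFn h) * pivL A (List.ofFn h) i j := by
  induction m with
  | zero => intro A h i j _; simp [pprod, pivL]; rfl
  | succ m ih =>
    intro A h i j hp
    rw [List.ofFn_succ] at hp ⊢
    obtain ⟨h0, h1⟩ := hp
    have e : ∀ a : ι, (Fin.snoc h a : Fin (m+2) → ι) = (Fin.cons (h 0) (Fin.snoc (fun i => h i.succ) a : Fin (m+1) → ι) : Fin (m+2) → ι) := by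
      intro a
      rw [Fin.cons_snoc_eq_snoc_cons]
      congr 1
      ext i; refine Fin.cases ?_ ?_ i <;> simp
    rw [e i, e j, det_piv A (h 0) h0, ih _ _ _ _ h1]
    simp only [pprod, pivL]
    ring

theorem pivL_append (L₁ : List ι) : ∀ (A : Matrix ι ι K) (L₂ : List ι), pivL A (L₁ ++ L₂) = pivL (pivL A L₁) L₂ := by
  induction L₁ with
  | nil => intro A L₂; rfl
  | cons k L ih => intro A L₂; simp only [List.cons_append, pivL]; exact ih _ _

theorem PNZ_append (L₁ : List ι) : ∀ (A : Matrix ι ι K) (L₂ : List ι), PNZ A (L₁ ++ L₂) ↔ PNZ A L₁ ∧ PNZ (pivL A L₁) L₂ := by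
  induction L₁ with
  | nil => intro A L₂; simp [PNZ, pivL]
  | cons k L ih => intro A L₂; simp only [List.cons_append, pivL, PNZ, ih]; tauto

end Pivot

section Transfer
variable {ι : Type*} [DecidableEq ι]

/-- all pivots met along the list are positive -/
def PPb (A : Matrix ι ι ℚ) : List ι → Bool
  | [] => true
  | k :: L => decide (0 < A k k) && PPb (piv A k) L

omit [DecidableEq ι] in
theorem PPb.pnz : ∀ (L : List ι) (A : Matrix ι ι ℚ), PPb A L = true → PNZ A L
  | [], _, _ => trivial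
  | k :: L, A, h => by
    simp only [PPb, Bool.and_eq_true, decide_eq_true_eq] at h
    exact ⟨h.1.ne', PPb.pnz L _ h.2⟩

/-- every finite set of indices can be enumerated so that elimination has positive pivots and
all remaining off-diagonal pairs have nonnegative product -/
def WElim (A : Matrix ι ι ℚ) : Prop :=
  ∀ G : Finset ι, ∃ L : List ι, L.Nodup ∧ L.toFinset = G ∧ PPb A L = true ∧
    ∀ i j, i ∉ G → j ∉ G → i ≠ j → 0 ≤ pivL A L i j * pivL A L j i

theorem range_get (L : List ι) : Set.range L.get = (L.toFinset : Set ι) := by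
  ext x; simp [List.mem_iff_get]

theorem range_snoc {m : ℕ} (h : Fin m → ι) (i : ι) :
    Set.range (Fin.snoc h i : Fin (m+1) → ι) = insert i (Set.range h) := by
  ext x
  constructor
  · rintro ⟨t, rfl⟩
    refine Fin.lastCases ?_ (fun t => ?_) t
    · simp
    · simp
  · rintro (rfl | ⟨t, rfl⟩)
    · exact ⟨Fin.last m, by simp⟩
    · exact ⟨t.castSucc, by simp⟩

omit [DecidableEq ι] in
theorem snoc_injective {m : ℕ} {h : Fin m → ι} (hh : Function.Injective h) {i : ι} (hi : i ∉ Set.range h) :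
    Function.Injective (Fin.snoc h i : Fin (m+1) → ι) := by
  intro a b
  refine Fin.lastCases ?_ (fun a => ?_) a <;> refine Fin.lastCases ?_ (fun b => ?_) b
  · intro _; rfl
  · simp only [Fin.snoc_last, Fin.snoc_castSucc]
    intro h'; exact absurd ⟨b, h'.symm⟩ hi
  · simp only [Fin.snoc_last, Fin.snoc_castSucc]
    intro h'; exact absurd ⟨a, h'⟩ hi
  · simp only [Fin.snoc_castSucc]
    intro h'; rw [hh h']

theorem almost_nonneg {A : Matrix ι ι ℚ} (hA : WElim A) {k : ℕ} (f g : Fin k → ι) (hf : Function.Injective f)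
    (hg : Function.Injective g) (hk : (Finset.univ.image f ∩ Finset.univ.image g).card + 1 = k) :
    0 ≤ (A.submatrix f g).det * (A.submatrix g f).det := by
  set G := Finset.univ.image f ∩ Finset.univ.image g with hG
  obtain ⟨L, hnd, hLG, hpp, hpair⟩ := hA G
  have hlen : L.length = G.card := by
    rw [← List.toFinset_card_of_nodup hnd, hLG]
  rw [← hlen] at hk
  subst hk
  have cf : (Finset.univ.image f).card = L.length + 1 := by
    rw [Finset.card_image_of_injective _ hf]; simp
  have cg : (Finset.univ.image g).card = L.length + 1 := by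
    rw [Finset.card_image_of_injective _ hg]; simp
  have sf : G ⊆ Finset.univ.image f := Finset.inter_subset_left
  have sg : G ⊆ Finset.univ.image g := Finset.inter_subset_right
  obtain ⟨i, hi⟩ := Finset.card_eq_one.mp (show (Finset.univ.image f \ G).card = 1 by
    rw [Finset.card_sdiff_of_subset sf, cf, hlen]; omega)
  obtain ⟨j, hj⟩ := Finset.card_eq_one.mp (show (Finset.univ.image g \ G).card = 1 by
    rw [Finset.card_sdiff_of_subset sg, cg, hlen]; omega)
  have hi' : i ∈ Finset.univ.image f \ G := by rw [hi]; simp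
  have hj' : j ∈ Finset.univ.image g \ G := by rw [hj]; simp
  rw [Finset.mem_sdiff] at hi' hj'
  have hij : i ≠ j := by
    rintro rfl
    exact hi'.2 (Finset.mem_inter.mpr ⟨hi'.1, hj'.1⟩)
  have ef : Finset.univ.image f = insert i G := by
    rw [← Finset.sdiff_union_of_subset sf, hi]; rfl
  have eg : Finset.univ.image g = insert j G := by
    rw [← Finset.sdiff_union_of_subset sg, hj]; rfl
  have rL : Set.range L.get = (G : Set ι) := by rw [range_get, hLG]
  have hLi := List.nodup_iff_injective_get.mp hnd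
  have rf : Set.range f = Set.range (Fin.snoc L.get i : Fin (L.length+1) → ι) := by
    rw [range_snoc, rL]
    have := congrArg (fun s : Finset ι => (s : Set ι)) ef
    simpa using this
  have rg : Set.range g = Set.range (Fin.snoc L.get j : Fin (L.length+1) → ι) := by
    rw [range_snoc, rL]
    have := congrArg (fun s : Finset ι => (s : Set ι)) eg
    simpa using this
  obtain ⟨σ, hσ⟩ := exists_perm_of_range_eq hf (snoc_injective hLi (by rw [rL]; exact_mod_cast hi'.2)) rf
  obtain ⟨τ, hτ⟩ := exists_perm_of_range_eq hg (snoc_injective hLi (by rw [rL]; exact_mod_cast hj'.2)) rg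
  have hP : PNZ A (List.ofFn L.get) := by rw [List.ofFn_get]; exact PPb.pnz _ _ hpp
  have d1 := det_list_snoc L.length A L.get i j hP
  have d2 := det_list_snoc L.length A L.get j i hP
  rw [hσ, hτ, List.ofFn_get] at d1
  rw [hσ, hτ, List.ofFn_get] at d2
  have key := det_mul_det_perm (A.submatrix f g) (A.submatrix g f) σ τ
  rw [← key]
  have k1 : ((A.submatrix f g).submatrix σ τ).det = pprod A L * pivL A L i j := by
    rw [← d1]; rfl
  have k2 : ((A.submatrix g f).submatrix τ σ).det = pprod A L * pivL A L j i := by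
    rw [← d2]; rfl
  rw [k1, k2]
  have := hpair i j hi'.2 hj'.2 hij
  calc (0:ℚ) ≤ (pprod A L * pprod A L) * (pivL A L i j * pivL A L j i) := mul_nonneg (mul_self_nonneg _) this
    _ = _ := by ring

end Transfer

section Witness

open Complex

/-- the rational witness of order 5:
first column `50625`, first row `160` off the diagonal, then `161` on the diagonal, `160` below it, `0` above it -/
def wit : Matrix (Fin 5) (Fin 5) ℚ := fun i j =>
  if j = 0 then 50625 else if i = 0 then 160 else if i = j then 161 else if j < i then 160 else 0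

theorem wit_check : ∀ b : Fin 5 → Bool, PPb wit ((List.finRange 5).filter (fun i => b i)) = true ∧
    ∀ i j, b i = false → b j = false → i ≠ j →
      0 ≤ pivL wit ((List.finRange 5).filter (fun i => b i)) i j * pivL wit ((List.finRange 5).filter (fun i => b i)) j i := by
  decide +kernel

theorem wit_elim : WElim wit := by
  intro G
  obtain ⟨h1, h2⟩ := wit_check (fun i => decide (i ∈ G))
  refine ⟨(List.finRange 5).filter (fun i => decide (i ∈ G)), (List.nodup_finRange 5).filter _, ?_, h1, ?_⟩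
  · ext x; simp
  · intro i j hi hj hij
    exact h2 i j (by simpa using hi) (by simpa using hj) hij

/-- principal submatrices containing the first index -/
def shp (k : ℕ) : Matrix (Fin (k+1)) (Fin (k+1)) ℂ := fun i j =>
  if j = 0 then 50625 else if i = 0 then 160 else if i = j then 161 else if j < i then 160 else 0

/-- principal submatrices not containing the first index -/
def tri (k : ℕ) : Matrix (Fin k) (Fin k) ℂ := fun i j => if i = j then 161 else if j < i then 160 else 0

theorem det_tri (k : ℕ) (x : ℂ) : (tri k + x • (1 : Matrix (Fin k) (Fin k) ℂ)).det = (x + 161) ^ k := by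
  rw [Matrix.det_of_lowerTriangular]
  · have : ∀ i : Fin k, (tri k + x • (1 : Matrix (Fin k) (Fin k) ℂ)) i i = x + 161 := by
      intro i
      simp [tri]; ring
    simp [this]
  · intro i j hij
    have h1 : i < j := hij
    simp [tri, h1.ne, not_lt.mpr h1.le]

theorem det_shp (k : ℕ) (x : ℂ) :
    (shp k + x • (1 : Matrix (Fin (k+1)) (Fin (k+1)) ℂ)).det = x * (x + 161) ^ k + 50625 * (x + 1) ^ k := by
  have hrow : (shp k + x • (1 : Matrix (Fin (k+1)) (Fin (k+1)) ℂ)) =
      (shp k + x • (1 : Matrix (Fin (k+1)) (Fin (k+1)) ℂ)).updateRow 0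
        ((fun j => if j = 0 then x else 0) + (fun j => if j = 0 then 50625 else 160)) := by
    ext i j
    by_cases hi : i = 0
    · subst hi
      rw [Matrix.updateRow_self]
      by_cases hj : j = 0
      · subst hj; simp [shp]; ring
      · have hj' : (0 : Fin (k+1)) ≠ j := fun h => hj h.symm
        simp [shp, hj, Matrix.one_apply_ne hj']
    · rw [Matrix.updateRow_ne hi]
  rw [hrow, Matrix.det_updateRow_add]
  congr 1
  · -- first part: expand along the first row
    rw [Matrix.det_succ_row_zero, Finset.sum_eq_single 0]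
    · have e : ((shp k + x • (1 : Matrix (Fin (k+1)) (Fin (k+1)) ℂ)).updateRow 0 (fun j => if j = 0 then x else 0)).submatrix
          Fin.succ (Fin.succAbove 0) = tri k + x • (1 : Matrix (Fin k) (Fin k) ℂ) := by
        ext i j
        simp only [Matrix.submatrix_apply, Fin.zero_succAbove]
        rw [Matrix.updateRow_ne (Fin.succ_ne_zero i)]
        simp [shp, tri, Matrix.one_apply]
      rw [e, det_tri]
      simp
    · intro j _ hj
      rw [Matrix.updateRow_self]
      simp [hj]
    · simp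
  · -- second part: subtract the first row from the others
    let B : Matrix (Fin (k+1)) (Fin (k+1)) ℂ := fun i j =>
      if i = 0 then (if j = 0 then 50625 else 160) else if i = j then x + 1 else if i < j then -160 else 0
    have h1 : ((shp k + x • (1 : Matrix (Fin (k+1)) (Fin (k+1)) ℂ)).updateRow 0 (fun j => if j = 0 then 50625 else 160)).det
        = B.det := by
      apply Matrix.det_eq_of_forall_row_eq_smul_add_const (fun i => if i = 0 then 0 else 1) 0 (by simp)
      intro i j
      by_cases hi : i = 0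
      · subst hi; rw [Matrix.updateRow_self]; simp [B]
      · rw [Matrix.updateRow_ne hi]
        by_cases hj : j = 0
        · subst hj
          simp [B, shp, hi]
        · by_cases hij : i = j
          · subst hij
            simp [B, shp, hi]; ring
          · rcases lt_or_gt_of_ne hij with h | h
            · simp [B, shp, hi, hj, hij, h, not_lt.mpr h.le, Matrix.one_apply_ne hij]
            · simp [B, shp, hi, hj, hij, h, not_lt.mpr h.le, Matrix.one_apply_ne hij]
    rw [h1, Matrix.det_of_upperTriangular]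
    · rw [Fin.prod_univ_succ]
      simp [B]
    · intro i j hij
      have h2 : j < i := hij
      have hi : i ≠ 0 := by
        rintro rfl
        exact absurd h2 (Fin.not_lt_zero _)
      simp [B, hi, h2.ne', not_lt.mpr h2.le]

/-- the complex witness -/
def wit' : Matrix (Fin 5) (Fin 5) ℂ := wit.map (fun q => (q : ℂ))

theorem wit'_apply (i j : Fin 5) : wit' i j =
    if j = 0 then 50625 else if i = 0 then 160 else if i = j then 161 else if j < i then 160 else 0 := by
  simp only [wit', wit, Matrix.map_apply]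
  split_ifs <;> norm_num

theorem zero_iff {k : ℕ} (α : Fin (k+1) ↪o Fin 5) (h : α 0 = 0) (i : Fin (k+1)) : α i = 0 ↔ i = 0 := by
  constructor
  · intro hi
    exact α.injective (hi.trans h.symm)
  · rintro rfl; exact h

theorem sub_shp {k : ℕ} (α : Fin (k+1) ↪o Fin 5) (h : α 0 = 0) : wit'.submatrix α α = shp k := by
  ext i j
  simp only [Matrix.submatrix_apply, wit'_apply, shp, zero_iff α h, α.injective.eq_iff, α.lt_iff_lt]

theorem sub_tri {k : ℕ} (α : Fin k ↪o Fin 5) (h : ∀ i, α i ≠ 0) : wit'.submatrix α α = tri k := by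
  ext i j
  simp only [Matrix.submatrix_apply, wit'_apply, tri, h, if_false, α.injective.eq_iff, α.lt_iff_lt]

theorem cases_emb {m : ℕ} (α : Fin m ↪o Fin 5) :
    (∃ k, ∃ h : m = k + 1, α (Fin.cast h.symm 0) = 0) ∨ (∀ i, α i ≠ 0) := by
  by_cases hc : ∃ i, α i = 0
  · left
    obtain ⟨i, hi⟩ := hc
    rcases m with _ | k
    · exact i.elim0
    · refine ⟨k, rfl, ?_⟩
      have h1 : α 0 ≤ α i := α.le_iff_le.mpr (Fin.zero_le i)
      rw [hi] at h1
      exact Fin.le_zero_iff.mp h1
  · right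
    push Not at hc
    exact hc

theorem witP : IsPMatrix wit' := by
  intro m α
  rw [minor]
  rcases cases_emb α with ⟨k, rfl, h⟩ | h
  · rw [sub_shp α h]
    have := det_shp k 0
    rw [zero_smul, add_zero] at this
    rw [this]
    constructor <;> simp
  · rw [sub_tri α h]
    have := det_tri m 0
    rw [zero_smul, add_zero, zero_add] at this
    rw [this]
    have e : ((161:ℂ)) ^ m = (((161:ℝ) ^ m : ℝ) : ℂ) := by push_cast; rfl
    rw [e]
    exact ⟨Complex.ofReal_im _, by rw [Complex.ofReal_re]; positivity⟩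

theorem minor_rat {k : ℕ} (α β : Fin k ↪o Fin 5) :
    minor wit' α β = (((wit.submatrix α β).det : ℚ) : ℂ) := by
  have h := (Rat.castHom ℂ).map_det (wit.submatrix α β)
  change (((wit.submatrix α β).det : ℚ) : ℂ) = _ at h
  rw [h]
  rfl

theorem witW : IsWSS wit' := by
  intro k α β hd
  rw [minor_rat, minor_rat, ← Rat.cast_mul]
  have h := almost_nonneg wit_elim α β α.injective β.injective (by
    unfold idx at hd; omega)
  constructor
  · exact Complex.ratCast_im _
  · rw [Complex.ratCast_re]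
    exact_mod_cast h

/-- the real polynomial whose roots are the real eigenvalues of `shp k` -/
def F (k : ℕ) (t : ℝ) : ℝ := 50625 * (1 - t) ^ k - t * (161 - t) ^ k

theorem spec_shp (k : ℕ) (r : ℝ) : (r : ℂ) ∈ spectrum ℂ (shp k) ↔ F k r = 0 := by
  have e : (shp k + (-(r : ℂ)) • (1 : Matrix (Fin (k+1)) (Fin (k+1)) ℂ)).det = ((F k r : ℝ) : ℂ) := by
    rw [det_shp]
    simp only [F]
    push_cast
    ring
  constructor
  · intro h
    have := det_shift_zero h
    rw [e] at this
    exact_mod_cast this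
  · intro h
    apply mem_spectrum_of_det
    rw [e, h]; simp

theorem spec_tri (k : ℕ) (hk : 0 < k) (r : ℝ) : (r : ℂ) ∈ spectrum ℂ (tri k) ↔ r = 161 := by
  have e : (tri k + (-(r : ℂ)) • (1 : Matrix (Fin k) (Fin k) ℂ)).det = (((161 - r) ^ k : ℝ) : ℂ) := by
    rw [det_tri]
    push_cast
    ring
  constructor
  · intro h
    have := det_shift_zero h
    rw [e] at this
    have h2 : (161 - r) ^ k = 0 := by exact_mod_cast this
    have := pow_eq_zero_iff (hk.ne') |>.mp h2
    linarith
  · intro h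
    apply mem_spectrum_of_det
    rw [e, h]
    simp [hk.ne']

theorem leastReal_eq {k : ℕ} {B : Matrix (Fin k) (Fin k) ℂ} {t : ℝ}
    (h : IsLeast {r : ℝ | (r : ℂ) ∈ spectrum ℂ B} t) : leastReal B = (t : EReal) := by
  apply le_antisymm
  · exact sInf_le ⟨t, rfl, h.1⟩
  · apply le_sInf
    rintro x ⟨r, rfl, hr⟩
    exact EReal.coe_le_coe_iff.mpr (h.2 hr)

theorem F_cont (k : ℕ) : Continuous (F k) := by
  unfold F; fun_prop

theorem F_pos_of_nonpos (k : ℕ) {t : ℝ} (ht : t ≤ 0) : 0 < F k t := by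
  unfold F
  have h1 : 0 < 50625 * (1 - t) ^ k := by
    have : 0 < 1 - t := by linarith
    positivity
  have h2 : t * (161 - t) ^ k ≤ 0 := by
    have : 0 ≤ (161 - t) ^ k := pow_nonneg (by linarith) _
    exact mul_nonpos_of_nonpos_of_nonneg ht this
  linarith

theorem exists_least (k : ℕ) {b : ℝ} (hb : 0 < b) (hF : F k b ≤ 0) :
    ∃ t, IsLeast {r : ℝ | F k r = 0} t ∧ 0 < t ∧ t ≤ b := by
  have hiv : ∃ r ∈ Set.Icc 0 b, F k r = 0 := by
    have h := intermediate_value_Icc' hb.le ((F_cont k).continuousOn (s := Set.Icc 0 b))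
    exact h ⟨hF, (F_pos_of_nonpos k le_rfl).le⟩
  have hcomp : IsCompact ({r : ℝ | F k r = 0} ∩ Set.Icc 0 b) :=
    (isCompact_Icc).inter_left (isClosed_eq (F_cont k) continuous_const)
  obtain ⟨r, hr, hr0⟩ := hiv
  obtain ⟨t, ht⟩ := hcomp.exists_isLeast ⟨r, hr0, hr⟩
  refine ⟨t, ⟨ht.1.1, ?_⟩, ?_, ht.1.2.2⟩
  · intro x hx
    by_cases hx0 : x ≤ 0
    · exact absurd hx (F_pos_of_nonpos k hx0).ne'
    · by_cases hxb : x ≤ b
      · exact ht.2 ⟨hx, (not_le.mp hx0).le, hxb⟩
      · exact ht.1.2.2.trans (not_le.mp hxb).le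
  · by_contra hcon
    exact absurd ht.1.1 (F_pos_of_nonpos k (not_lt.mp hcon)).ne'

/-- data on the least roots -/
theorem roots_data : ∃ T : ℕ → ℝ, (∀ k, IsLeast {r : ℝ | F k r = 0} (T k)) ∧ (∀ k, 0 < T k) ∧ (∀ k, T (k+1) < 1) ∧
    ∀ k, T (k+1) ≤ T k := by
  have h0 : ∀ k, ∃ t, IsLeast {r : ℝ | F k r = 0} t ∧ 0 < t ∧ (0 < k → t < 1) := by
    intro k
    rcases Nat.eq_zero_or_pos k with rfl | hk
    · obtain ⟨t, h1, h2, _⟩ := exists_least 0 (b := 50625) (by norm_num) (by norm_num [F])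
      exact ⟨t, h1, h2, fun h => absurd h (lt_irrefl _)⟩
    · have hF : F k 1 < 0 := by
        simp only [F, sub_self]
        rw [zero_pow hk.ne']
        norm_num
      obtain ⟨t, h1, h2, h3⟩ := exists_least k one_pos hF.le
      refine ⟨t, h1, h2, fun _ => lt_of_le_of_ne h3 ?_⟩
      rintro rfl
      exact absurd h1.1 hF.ne
  choose T h1 h2 h3 using h0
  refine ⟨T, h1, h2, fun k => h3 (k+1) (Nat.succ_pos k), ?_⟩
  intro k
  have hroot : F k (T k) = 0 := (h1 k).1
  have hV : 0 < (1 - T k) ^ k := by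
    rcases Nat.eq_zero_or_pos k with rfl | hk
    · simp
    · exact pow_pos (by linarith [h3 k hk]) _
  have hneg : F (k+1) (T k) ≤ 0 := by
    have e : F (k+1) (T k) = -160 * (50625 * (1 - T k) ^ k) + (161 - T k) * F k (T k) := by
      simp only [F]; ring
    rw [e, hroot]
    nlinarith
  obtain ⟨t, ht, _, hle⟩ := exists_least (k+1) (h2 k) hneg
  have : T (k+1) = t := (h1 (k+1)).unique ht
  rw [this]; exact hle

theorem idx_card {n k : ℕ} (α : Fin k ↪o Fin n) : (idx α).card = k := by
  rw [idx, Finset.card_image_of_injective _ α.injective]; simp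

theorem wit_omega_pos : IsOmega wit' ∧ 0 ≤ leastReal wit' := by
  obtain ⟨T, hL, hpos, hlt, hmono⟩ := roots_data
  have hanti : Antitone T := antitone_nat_of_succ_le hmono
  have hshp : ∀ k, leastReal (shp k) = (T k : EReal) := by
    intro k
    apply leastReal_eq
    have e : {r : ℝ | (r : ℂ) ∈ spectrum ℂ (shp k)} = {r : ℝ | F k r = 0} := by
      ext r; exact spec_shp k r
    rw [e]; exact hL k
  have htri : ∀ k, 0 < k → leastReal (tri k) = ((161 : ℝ) : EReal) := by
    intro k hk
    apply leastReal_eq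
    have e : {r : ℝ | (r : ℂ) ∈ spectrum ℂ (tri k)} = {161} := by
      ext r; exact spec_tri k hk r
    rw [e]; exact isLeast_singleton
  constructor
  · intro k m β α hk hsub
    have hkm : k ≤ m := by
      have := Finset.card_le_card hsub
      rwa [idx_card, idx_card] at this
    rcases cases_emb β with ⟨b, rfl, hb⟩ | hb
    · have hb0 : (0 : Fin 5) ∈ idx β := Finset.mem_image.mpr ⟨_, Finset.mem_univ _, hb⟩
      rcases cases_emb α with ⟨a, rfl, ha⟩ | ha
      · rw [sub_shp β hb, sub_shp α ha, hshp, hshp]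
        exact ⟨EReal.coe_le_coe_iff.mpr (hanti (by omega)), EReal.coe_lt_top _⟩
      · obtain ⟨i, _, hi⟩ := Finset.mem_image.mp (hsub hb0)
        exact absurd hi (ha i)
    · rcases cases_emb α with ⟨a, rfl, ha⟩ | ha
      · rw [sub_tri β hb, sub_shp α ha, hshp, htri k hk]
        refine ⟨EReal.coe_le_coe_iff.mpr ?_, EReal.coe_lt_top _⟩
        have ha1 : 0 < a := by
          by_contra hcon
          have ha0 : a = 0 := by omega
          subst ha0
          have hcard : (idx β).card = (idx α).card := by rw [idx_card, idx_card]; omega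
          have heq := Finset.eq_of_subset_of_card_le hsub hcard.ge
          have h0 : (0 : Fin 5) ∈ idx α := Finset.mem_image.mpr ⟨_, Finset.mem_univ _, ha⟩
          rw [← heq] at h0
          obtain ⟨i, _, hi⟩ := Finset.mem_image.mp h0
          exact hb i hi
        obtain ⟨a', rfl⟩ : ∃ a', a = a' + 1 := ⟨a - 1, by omega⟩
        linarith [hlt a']
      · rw [sub_tri β hb, sub_tri α ha, htri k hk, htri m (by omega)]
        exact ⟨le_rfl, EReal.coe_lt_top _⟩
  · have e : wit' = shp 4 := by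
      have := sub_shp (RelEmbedding.refl (α := Fin 5) (· ≤ ·)) rfl
      simpa using this
    rw [e, hshp]
    exact_mod_cast (hpos 4).le

theorem wit_eigenvalue : -(7 + 24 * I) ∈ spectrum ℂ wit' := by
  apply mem_spectrum_of_det
  have e : wit' = shp 4 := by
    have := sub_shp (RelEmbedding.refl (α := Fin 5) (· ≤ ·)) rfl
    simpa using this
  rw [e, neg_neg, det_shp]
  have h2 : I ^ 2 = -1 := I_sq
  have h4 : I ^ 4 = 1 := I_pow_four
  have h3 : I ^ 3 = -I := by rw [pow_succ, h2]; ring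
  have h5 : I ^ 5 = I := by rw [pow_succ, h4]; ring
  ring_nf
  rw [h2, h3, h4, h5]
  ring

end Witness

/-- The largest `N` such that every GKK tau-matrix of order at most `N` is stable equals `4`. -/
theorem result : IsGreatest {N : ℕ | ∀ n ≤ N, ∀ A : Matrix (Fin n) (Fin n) ℂ, IsGKK A → IsTau A → IsStable A} 4 := by
  constructor
  · intro n hn A hG _
    exact stable_small hn hG.1 hG.2
  · intro N hN
    by_contra hcon
    have h := hN 5 (by omega) wit' ⟨witP, witW⟩ ⟨wit_omega_pos.1, witP, wit_omega_pos.2⟩ _ wit_eigenvalue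
    simp at h
    norm_num at h

end Pool.Agent.Results.MP_f9eabf_al.Four
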